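import Mathlib
import Pool.Agent.Lib.MP_87d05f_lc.CspMain
import Pool.Agent.Lib.MP_87d05f_lc.Ternary

set_option autoImplicit false

/-!
# Gap-ETH for the constraint satisfaction problem of every hard finite template

For every finite constraint language on a finite domain whose polymorphisms admit a
minor-preserving map to the projections, the gap problem (satisfiable against `ε`-far from
satisfiable) has no exponential separators for some `ε` and `b` if and only if this is so for
3-CNF formulas, and if and only if this is so for the instances of the language in which every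
variable occurs a bounded number of times, the time being measured by the number of constraints.
The condition holds for every Boolean language that is preserved by none of the constants,
minimum, maximum, majority and minority, and for the language of colourings with `q ≥ 3` colours.
-/

namespace Pool.Agent.Results.MP_87d05f_lc.ConstraintLanguages

/-- Exponential separators for a promise problem with instances `I`: the instances satisfying
`valid` are given by `code`; those satisfying `yes` must be accepted and those satisfying `no`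
rejected within `C (L + 1) ^ e * 2 ^ (μ F / b)` steps, `L` being the length of the code. -/
def Separator {I : Type} (code : I → List Bool) (valid yes no : I → Prop) (μ : I → ℕ)
    (b : ℕ) : Prop :=
  ∃ C e : ℕ, ∃ tm : Turing.FinTM2, ∃ e₀ : tm.Γ tm.k₀ ≃ Bool,
    ∃ acc rej : List (tm.Γ tm.k₁), acc ≠ rej ∧
    ∀ F : I, valid F →
      (yes F → Nonempty (Turing.TM2OutputsInTime tm ((code F).map e₀.symm) (some acc)
        (C * ((code F).length + 1) ^ e * 2 ^ (μ F / b)))) ∧
      (no F → Nonempty (Turing.TM2OutputsInTime tm ((code F).map e₀.symm) (some rej)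
        (C * ((code F).length + 1) ^ e * 2 ^ (μ F / b))))

/-! ### 3-CNF formulas: the statement of the problem -/

/-- the encoding of formulas fixed in the problem -/
def satCode (F : List (List (Bool × ℕ))) : List Bool :=
  F.flatMap (fun c => c.flatMap (fun l => [true, l.1] ++
    (Nat.bits l.2).flatMap (fun x => [true, x]) ++ [false, false]) ++ [false, true])

/-- the number of variables of a formula -/
def satVars (F : List (List (Bool × ℕ))) : ℕ := (F.flatten.map (fun l => l.2)).toFinset.card

/-- `(ε, b)` admits an exponential separator, as in the problem -/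
def SatSeparator (ε : ℚ) (b : ℕ) : Prop :=
  Separator satCode (fun F => F ≠ [] ∧ ∀ c ∈ F, c.length ≤ 3)
    (fun F => ∃ a : ℕ → Bool, ∀ c ∈ F, ∃ l ∈ c, a l.2 = l.1)
    (fun F => ∀ a : ℕ → Bool, ε * (F.length : ℚ) ≤
      ((F.countP (fun c => !(c.any (fun l => a l.2 == l.1))) : ℕ) : ℚ)) satVars b

/-- the statement Q1 of the problem -/
def SatHard : Prop := ∃ ε : ℚ, 0 < ε ∧ ε < 1 ∧ ∃ b : ℕ, 0 < b ∧ ¬ SatSeparator ε b

/-! ### Constraint satisfaction problems -/

section csp

variable {d g : ℕ} {ar : Fin g → ℕ}

/-- a constraint: a relation symbol `i` with a list of `ar i` variables -/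
abbrev Constraint (ar : Fin g → ℕ) : Type := (i : Fin g) × (Fin (ar i) → ℕ)

/-- the encoding of instances, the symbol and the variables of every constraint in binary -/
def cspCode (F : List (Constraint ar)) : List Bool :=
  F.flatMap (fun c => ((c.1 : ℕ) :: List.ofFn c.2).flatMap (fun v =>
    (Nat.bits v).flatMap (fun x => [true, x]) ++ [false, false]) ++ [false, true])

/-- the number of variables of an instance -/
def cspVars (F : List (Constraint ar)) : ℕ := (F.flatMap (fun c => List.ofFn c.2)).toFinset.card

/-- no variable occurs more than `K` times, over all constraints and all their places -/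
def AtMost (K : ℕ) (F : List (Constraint ar)) : Prop :=
  ∀ v : ℕ, (F.flatMap (fun c => List.ofFn c.2)).count v ≤ K

/-- `(ε, b)` admits an exponential separator for the constraint language `R` (`R i x = true`
means that the tuple `x` is in the `i`-th relation) on the nonempty instances of the class
`valid`: satisfiable instances are to be accepted, instances in which every assignment violates
at least an `ε` fraction of the constraints are to be rejected, in time
`C (L + 1) ^ e * 2 ^ (μ F / b)` -/
def CspSeparator (R : (i : Fin g) → (Fin (ar i) → Fin d) → Bool)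
    (valid : List (Constraint ar) → Prop) (μ : List (Constraint ar) → ℕ)
    (ε : ℚ) (b : ℕ) : Prop :=
  Separator (cspCode (ar := ar)) (fun F => F ≠ [] ∧ valid F)
    (fun F => ∃ a : ℕ → Fin d, ∀ c ∈ F, R c.1 (fun j => a (c.2 j)) = true)
    (fun F => ∀ a : ℕ → Fin d, ε * (F.length : ℚ) ≤
      ((F.countP (fun c => !(R c.1 (fun j => a (c.2 j)))) : ℕ) : ℚ)) μ b

/-- the analogue of Q1 for the constraint language `R` and a class of instances, the time being
measured by `μ` -/
def CspHard (R : (i : Fin g) → (Fin (ar i) → Fin d) → Bool)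
    (valid : List (Constraint ar) → Prop) (μ : List (Constraint ar) → ℕ) : Prop :=
  ∃ ε : ℚ, 0 < ε ∧ ε < 1 ∧ ∃ b : ℕ, 0 < b ∧ ¬ CspSeparator R valid μ ε b

/-- `f` is a polymorphism: it preserves all relations -/
def Poly (R : (i : Fin g) → (Fin (ar i) → Fin d) → Bool) {n : ℕ}
    (f : (Fin n → Fin d) → Fin d) : Prop :=
  ∀ (i : Fin g) (t : Fin n → Fin (ar i) → Fin d), (∀ k, R i (t k) = true) →
    R i (fun j => f (fun k => t k j)) = true

/-- There is a minor-preserving map from the polymorphisms to the projections: `ξ` chooses a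
coordinate of every operation, and the coordinate chosen for the minor of a polymorphism `f`
given by `π` is `π` of the coordinate chosen for `f`. -/
def ToProjections (R : (i : Fin g) → (Fin (ar i) → Fin d) → Bool) : Prop :=
  ∃ ξ : (n : ℕ) → ((Fin (n + 1) → Fin d) → Fin d) → Fin (n + 1),
    ∀ (n m : ℕ) (π : Fin (n + 1) → Fin (m + 1)) (f : (Fin (n + 1) → Fin d) → Fin d),
      Poly R f → ξ m (fun x => f (fun k => x (π k))) = π (ξ n f)

end csp

/-- the relation `≠` on `q` elements -/
def neq (q : ℕ) : (i : Fin 1) → (Fin 2 → Fin q) → Bool := fun _ x => decide (x 0 ≠ x 1)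

open Pool.Agent.Lib.MP_87d05f_lc in
theorem satHard_iff : SatHard ↔ GapETH := by
  unfold SatHard GapETH
  have h : ∀ ε : ℚ, ∀ b : ℕ, SatSeparator ε b ↔ SepK 3 (fun _ => True) ε b := by
    intro ε b
    constructor
    · rintro ⟨C, e, tm, e₀, acc, rej, hne, h⟩
      exact ⟨C, e, tm, e₀, acc, rej, hne, fun F h1 h2 _ => h F ⟨h1, h2⟩⟩
    · rintro ⟨C, e, tm, e₀, acc, rej, hne, h⟩
      exact ⟨C, e, tm, e₀, acc, rej, hne, fun F h1 => h F h1.1 h1.2 trivial⟩
  simp only [h]

open Pool.Agent.Lib.MP_87d05f_lc in
theorem cspHard_iff {d g : ℕ} {ar : Fin g → ℕ} (R : (i : Fin g) → (Fin (ar i) → Fin d) → Bool)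
    (μ : List (Constraint ar) → ℕ) : CspHard R (fun _ => True) μ ↔
      ∃ ε : ℚ, 0 < ε ∧ ε < 1 ∧ ∃ b : ℕ, 0 < b ∧
      ¬ GSep (codeC (ar := ar)) (fun F => F ≠ []) (YC R) (NC R ε) μ b := by
  unfold CspHard
  have h : ∀ ε : ℚ, ∀ b : ℕ, CspSeparator R (fun _ => True) μ ε b ↔
      GSep (codeC (ar := ar)) (fun F => F ≠ []) (YC R) (NC R ε) μ b := by
    intro ε b
    constructor
    · intro hs
      exact GSep.mono (fun F h => ⟨h, trivial⟩) (fun _ _ h => h) (fun _ _ h => h)
        (fun _ _ => le_rfl) hs
    · intro hs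
      exact GSep.mono (fun F h => h.1) (fun _ _ h => h) (fun _ _ h => h)
        (fun _ _ => le_rfl) hs
  simp only [h]

theorem result :
    (∀ (d g : ℕ) (ar : Fin g → ℕ) (R : (i : Fin g) → (Fin (ar i) → Fin d) → Bool),
      ToProjections R →
        (SatHard ↔ CspHard R (fun _ => True) cspVars) ∧
        (SatHard ↔ ∃ K : ℕ, CspHard R (AtMost K) List.length)) ∧
    (∀ (g : ℕ) (ar : Fin g → ℕ) (R : (i : Fin g) → (Fin (ar i) → Fin 2) → Bool),
      ¬ Poly R (fun _ : Fin 1 → Fin 2 => 0) →
      ¬ Poly R (fun _ : Fin 1 → Fin 2 => 1) →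
      ¬ Poly R (fun x : Fin 2 → Fin 2 => min (x 0) (x 1)) →
      ¬ Poly R (fun x : Fin 2 → Fin 2 => max (x 0) (x 1)) →
      ¬ Poly R (fun x : Fin 3 → Fin 2 =>
        max (min (x 0) (x 1)) (max (min (x 1) (x 2)) (min (x 0) (x 2)))) →
      ¬ Poly R (fun x : Fin 3 → Fin 2 => x 0 + x 1 + x 2) → ToProjections R) ∧
    (∀ q : ℕ, 3 ≤ q → ToProjections (ar := fun _ : Fin 1 => 2) (neq q)) := by
  refine ⟨fun d g ar R hR => ?_, fun g ar R h0 h1 h2 h3 h4 h5 =>
    Pool.Agent.Lib.MP_87d05f_lc.minHom_boolean h0 h1 h2 h3 h4 h5, fun q hq =>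
    Pool.Agent.Lib.MP_87d05f_lc.minHom_colour q hq⟩
  obtain ⟨h1, h2, h3⟩ := Pool.Agent.Lib.MP_87d05f_lc.csp_main (R := R) hR
    Pool.Agent.Lib.MP_87d05f_lc.sepK_of_not Pool.Agent.Lib.MP_87d05f_lc.sparse_of
  rw [satHard_iff, cspHard_iff]
  exact ⟨⟨fun h => h3 (h1 h), h2⟩, ⟨h1, fun h => h2 (h3 h)⟩⟩

end Pool.Agent.Results.MP_87d05f_lc.ConstraintLanguages
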