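import Mathlib
import Pool.Agent.Lib.MP_87d05f_lc.SP.Asm

set_option autoImplicit false

/-!
# A deterministic sparsifier for maximum constraint satisfaction in subexponential time

For every language of payoff functions on a finite domain, every `ε > 0` and every `b > 0` one
deterministic machine chooses, in time `C (L + 1) ^ e * 2 ^ ⌊n / b⌋`, at most `D (n + 1)` of the
constraints of an instance with `n` variables (with repetitions) such that the average payoff of
EVERY assignment is preserved up to `ε`.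
-/

namespace Pool.Agent.Results.MP_87d05f_lc.Sparsifier

variable {d g : ℕ} {ar : Fin g → ℕ}

/-- a constraint: a symbol `i` with a list of `ar i` variables -/
abbrev Constraint (ar : Fin g → ℕ) : Type := (i : Fin g) × (Fin (ar i) → ℕ)

/-- the encoding of instances: the symbols and the variables in binary -/
def code (F : List (Constraint ar)) : List Bool :=
  F.flatMap (fun c => ((c.1 : ℕ) :: List.ofFn c.2).flatMap (fun v =>
    (Nat.bits v).flatMap (fun x => [true, x]) ++ [false, false]) ++ [false, true])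

/-- the number of different variables of an instance -/
def numVars (F : List (Constraint ar)) : ℕ :=
  (F.flatMap (fun c => List.ofFn c.2)).toFinset.card

/-- the average payoff of the constraints under the assignment `a` -/
def average (φ : (i : Fin g) → (Fin (ar i) → Fin d) → ℕ) (a : ℕ → Fin d)
    (F : List (Constraint ar)) : ℚ :=
  ((F.map (fun c => φ c.1 (fun j => a (c.2 j)))).sum : ℚ) / (F.length : ℚ)

theorem result (φ : (i : Fin g) → (Fin (ar i) → Fin d) → ℕ) (hd : 0 < d) (ε : ℚ) (hε : 0 < ε)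
    (b : ℕ) (hb : 0 < b) :
    ∃ D C e : ℕ, ∃ tm : Turing.FinTM2, ∃ e₀ : tm.Γ tm.k₀ ≃ Bool, ∃ e₁ : tm.Γ tm.k₁ ≃ Bool,
      ∀ F : List (Constraint ar), F ≠ [] → ∃ F' : List (Constraint ar), F' ≠ [] ∧
        (∀ c ∈ F', c ∈ F) ∧ F'.length ≤ D * (numVars F + 1) ∧
        (∀ a : ℕ → Fin d, |average φ a F' - average φ a F| ≤ ε) ∧
        Nonempty (Turing.TM2OutputsInTime tm ((code F).map e₀.symm)
          (some ((code F').map e₁.symm))
          (C * ((code F).length + 1) ^ e * 2 ^ (numVars F / b))) := by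
  obtain ⟨D, hD⟩ := Pool.Agent.Lib.MP_87d05f_lc.SP.spmThm d g ar φ hd ε hε b hb
  obtain ⟨C, e, tm, e₀, e₁, h⟩ := hD (List (Constraint ar)) Pool.Agent.Lib.MP_87d05f_lc.codeC
    (fun _ => True) id Pool.Agent.Lib.MP_87d05f_lc.nvC Pool.Agent.Lib.MP_87d05f_lc.parseW
    Pool.Agent.Lib.MP_87d05f_lc.parseW_ptime (fun F _ => ⟨by
      rw [Pool.Agent.Lib.MP_87d05f_lc.codeC_eq, Pool.Agent.Lib.MP_87d05f_lc.parseW_encW]
      rfl, le_rfl, Pool.Agent.Lib.MP_87d05f_lc.nvC_le F⟩)
  refine ⟨D, C, e, tm, e₀, e₁, fun F hF => ?_⟩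
  obtain ⟨w, ⟨-, h1⟩, hrun⟩ := h F trivial
  obtain ⟨F', rfl, h2, h3, h4, h5⟩ := h1 hF
  exact ⟨F', h2, h3, h4, h5, hrun⟩

end Pool.Agent.Results.MP_87d05f_lc.Sparsifier
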